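import Pool.Agent.TH181.Nag.Cls
import Pool.Agent.TH176.Nag.Main

/-! Nagata's inequality for `D t ^ 2` very general points. -/

namespace Pool.Agent.TH181.Nag

open Finset MvPolynomial Pool.Agent.TH176.Nag

theorem irr_cls {D : ℕ} (hD : ¬ IsSquare D) {t d S : ℕ} (ht : 1 ≤ t) (hd : 0 < d)
    (h : (S : ℝ) = d * √((D * t ^ 2 : ℕ) : ℝ)) : False := by
  have h1 : (S : ℝ) ^ 2 = (d : ℝ) ^ 2 * ((D * t ^ 2 : ℕ) : ℝ) := by
    rw [h, mul_pow, Real.sq_sqrt (Nat.cast_nonneg _)]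
  have h2 : S ^ 2 = (d * t) ^ 2 * D := by
    have : (S : ℝ) ^ 2 = (((d * t) ^ 2 * D : ℕ) : ℝ) := by rw [h1]; push_cast; ring
    exact_mod_cast this
  have h3 : (d * t) ^ 2 ∣ S ^ 2 := ⟨D, h2⟩
  have h4 : d * t ∣ S := (Nat.pow_dvd_pow_iff (by norm_num)).1 h3
  obtain ⟨c, hc⟩ := h4
  apply hD
  refine ⟨c, ?_⟩
  have h5 : 0 < (d * t) ^ 2 := by positivity
  have h6 : (d * t) ^ 2 * D = (d * t) ^ 2 * (c * c) := by
    rw [← h2, hc]; ring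
  exact Nat.eq_of_mul_eq_mul_left h5 h6

/-- Nagata's inequality for `D t ^ 2` very general points, `t` large -/
theorem nagata_cls {D : ℕ} (hD : ¬ IsSquare D) : ∃ t0 : ℕ, ∀ t : ℕ, t0 ≤ t →
    ∀ {v : Fin (D * t ^ 2) → Fin 3 → ℂ}, (∀ i, v i 0 ≠ 0) →
    AlgebraicIndependent (⊥ : Subfield ℂ)
        (fun q : Fin (D * t ^ 2) × Fin 2 => v q.1 q.2.succ / v q.1 0) →
    ∀ {d : ℕ} {m : Fin (D * t ^ 2) → ℕ} {F : MvPolynomial (Fin 3) ℂ}, F ≠ 0 → 0 < d →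
    F.IsHomogeneous d →
    (∀ i : Fin (D * t ^ 2), ∀ s : Fin 3 →₀ ℕ, (∑ j, s j) < m i →
            MvPolynomial.coeff s
              (MvPolynomial.aeval
                (fun j : Fin 3 => (X j + MvPolynomial.C (v i j) : MvPolynomial (Fin 3) ℂ)) F) = 0) →
    ∑ i, (m i : ℝ) < d * Real.sqrt ((D * t ^ 2 : ℕ) : ℝ) := by
  have hD1 : 1 ≤ D := by
    rcases Nat.eq_zero_or_pos D with h | h
    · exact absurd ⟨0, by rw [h]⟩ hD
    · exact h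
  obtain ⟨t0, ht0, h⟩ := Emp_cls hD1
  refine ⟨t0, fun t ht v hv0 hind d m F hF hd hFd hm => ?_⟩
  have hle : ∑ i, (m i : ℝ) ≤ √((D * t ^ 2 : ℕ) : ℝ) * d := by
    refine sum_le_of_Emp (√((D * t ^ 2 : ℕ) : ℝ)) ?_ hv0 hind hF hFd hm
    intro e w hw
    apply h t ht (Fin (D * t ^ 2)) (Fintype.card_fin _)
    push_cast at hw ⊢
    exact hw
  refine lt_of_le_of_ne (by linarith) ?_
  intro heq
  apply irr_cls hD (ht0.trans ht) hd (S := ∑ i, m i)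
  rw [← heq]
  push_cast
  rfl

end Pool.Agent.TH181.Nag
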