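import Pool.Agent.TH181.Nag.Quad

/-! The moves between shapes of triangles, as an abstract relation.

A shape `(μ, ν)` stands for the triangles with a horizontal base, sides `x = α + μ y` and
`x = β - ν y`, and `β - α = E √(μ + ν)`, so that twice the area is `E ^ 2`. `Mv μ ν μ' ν'` says that
emptiness for the shape `(μ', ν')` implies emptiness for the shape `(μ, ν)` by flattenings and
limits of staircases. -/

namespace Pool.Agent.TH181.NagM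

open Pool.Agent.TH181.Nag

/-- moves between shapes -/
inductive Mv : ℝ → ℝ → ℝ → ℝ → Prop
  | refl (μ ν : ℝ) : Mv μ ν μ ν
  | mirror {μ ν μ' ν' : ℝ} (h : Mv ν μ μ' ν') : Mv μ ν μ' ν'
  | shear {μ ν μ' ν' : ℝ} (k : ℤ) (h : Mv (μ + k) (ν - k) μ' ν') : Mv μ ν μ' ν'
  | stepA {μ ν μ' ν' : ℝ} (u v : ℤ) (hc : IsCoprime u v) (hu : 0 ≤ u) (h1 : 0 ≤ u * μ + v)
      (h2 : u * ν ≤ v) (hn : 0 < μ + ν)
      (h : Mv (u * (u * μ + v)) ((v - u * ν) * (u * μ + v) / (μ + ν)) μ' ν') : Mv μ ν μ' ν'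
  | stepC {μ ν μ' ν' : ℝ} (u v : ℤ) (hc : IsCoprime u v) (hu : 0 ≤ u) (h1 : 0 ≤ u * μ + v)
      (h2 : v ≤ u * ν)
      (h : Mv (u * (u * μ + v)) (u * (u * ν - v)) μ' ν') : Mv μ ν μ' ν'
  | lim {μ' ν' : ℝ} {M : ℕ} (hM : 1 ≤ M) {ω : ℝ} (hω : 2 ≤ ω) (hω2 : ω ^ 2 + 1 = (M + 2) * ω)
      (h : Mv (1 / M) ((ω ^ 2 - 1) / M) μ' ν') : Mv 0 M μ' ν'

theorem Mv.trans {a b c d e f : ℝ} (h : Mv a b c d) (h' : Mv c d e f) : Mv a b e f := by
  induction h with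
  | refl μ ν => exact h'
  | mirror h ih => exact Mv.mirror (ih h')
  | shear k h ih => exact Mv.shear k (ih h')
  | stepA u v hc hu h1 h2 hn h ih => exact Mv.stepA u v hc hu h1 h2 hn (ih h')
  | stepC u v hc hu h1 h2 h ih => exact Mv.stepC u v hc hu h1 h2 (ih h')
  | lim hM hω hω2 h ih => exact Mv.lim hM hω hω2 (ih h')

/-- a predicate on shapes which is closed under the moves -/
structure Closed (P : ℝ → ℝ → Prop) : Prop where
  mirror : ∀ {μ ν : ℝ}, P ν μ → P μ ν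
  shear : ∀ {μ ν : ℝ} (k : ℤ), P (μ + k) (ν - k) → P μ ν
  stepA : ∀ {μ ν : ℝ} (u v : ℤ), IsCoprime u v → 0 ≤ u → 0 ≤ u * μ + v → u * ν ≤ v → 0 < μ + ν →
    P (u * (u * μ + v)) ((v - u * ν) * (u * μ + v) / (μ + ν)) → P μ ν
  stepC : ∀ {μ ν : ℝ} (u v : ℤ), IsCoprime u v → 0 ≤ u → 0 ≤ u * μ + v → v ≤ u * ν →
    P (u * (u * μ + v)) (u * (u * ν - v)) → P μ ν
  lim : ∀ {M : ℕ}, 1 ≤ M → ∀ {ω : ℝ}, 2 ≤ ω → ω ^ 2 + 1 = (M + 2) * ω →
    P (1 / M) ((ω ^ 2 - 1) / M) → P 0 M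

theorem Mv.closed {P : ℝ → ℝ → Prop} (hP : Closed P) {μ ν μ' ν' : ℝ} (h : Mv μ ν μ' ν')
    (h' : P μ' ν') : P μ ν := by
  induction h with
  | refl μ ν => exact h'
  | mirror h ih => exact hP.mirror (ih h')
  | shear k h ih => exact hP.shear k (ih h')
  | stepA u v hc hu h1 h2 hn h ih => exact hP.stepA u v hc hu h1 h2 hn (ih h')
  | stepC u v hc hu h1 h2 h ih => exact hP.stepC u v hc hu h1 h2 (ih h')
  | lim hM hω hω2 h ih => exact hP.lim hM hω hω2 (ih h')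

/-- moves between right triangles -/
def Rv (n n' : ℝ) : Prop := Mv 0 n 0 n'

theorem Rv.refl (n : ℝ) : Rv n n := Mv.refl 0 n

theorem Rv.trans {a b c : ℝ} (h : Rv a b) (h' : Rv b c) : Rv a c := Mv.trans h h'

theorem Rv.inv {n : ℝ} (hn : 0 < n) : Rv n (1 / n) := by
  refine Mv.stepA 0 1 isCoprime_one_right le_rfl (by norm_num) (by norm_num) (by linarith) ?_
  have e1 : ((0 : ℤ) : ℝ) * (((0 : ℤ) : ℝ) * 0 + ((1 : ℤ) : ℝ)) = 0 := by push_cast; ring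
  have e2 : (((1 : ℤ) : ℝ) - ((0 : ℤ) : ℝ) * n) * (((0 : ℤ) : ℝ) * 0 + ((1 : ℤ) : ℝ)) / (0 + n) = 1 / n := by
    push_cast; ring
  rw [e1, e2]
  exact Mv.refl _ _

/-- every shape flattens to a right triangle -/
theorem Mv.toRT {μ ν : ℝ} (hn : 0 < μ + ν) : Mv μ ν 0 (μ + ν) := by
  refine Mv.stepA 0 1 isCoprime_one_right le_rfl (by norm_num) (by norm_num) hn ?_
  have e1 : ((0 : ℤ) : ℝ) * (((0 : ℤ) : ℝ) * μ + ((1 : ℤ) : ℝ)) = 0 := by push_cast; ring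
  have e2 : (((1 : ℤ) : ℝ) - ((0 : ℤ) : ℝ) * ν) * (((0 : ℤ) : ℝ) * μ + ((1 : ℤ) : ℝ)) / (μ + ν) =
      1 / (μ + ν) := by
    push_cast; ring
  rw [e1, e2]
  have h := Rv.inv (n := 1 / (μ + ν)) (by positivity)
  rw [one_div_one_div] at h
  exact h

theorem Rv.mul {n : ℝ} (x : ℕ) (hx : 1 ≤ x) (hxn : 1 ≤ x * n) : Rv n (x ^ 2 * n) := by
  rcases Nat.lt_or_ge 1 x with h1 | h1
  · refine Mv.stepC x 1 isCoprime_one_right (by positivity) (by simp) (by push_cast; linarith) ?_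
    refine Mv.shear (-x) ?_
    have e1 : (((x : ℕ) : ℤ) : ℝ) * ((((x : ℕ) : ℤ) : ℝ) * 0 + ((1 : ℤ) : ℝ)) + ((-(x : ℤ) : ℤ) : ℝ) = 0 := by
      push_cast; ring
    have e2 : (((x : ℕ) : ℤ) : ℝ) * ((((x : ℕ) : ℤ) : ℝ) * n - ((1 : ℤ) : ℝ)) - ((-(x : ℤ) : ℤ) : ℝ) = x ^ 2 * n := by
      push_cast; ring
    rw [e1, e2]
    exact Mv.refl _ _
  · have : x = 1 := by omega
    subst this
    simpa using Rv.refl n

theorem Rv.div {n : ℝ} (hn : 0 < n) (x : ℕ) (hx : 1 ≤ x) (hxn : n ≤ x) : Rv n (x ^ 2 / n) := by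
  have h := (Rv.inv hn).trans (Rv.mul x hx (by rw [mul_one_div, le_div_iff₀ hn]; linarith))
  rwa [mul_one_div] at h

/-- the move from a right triangle of width `W` to width `k W + y / W` -/
theorem Rv.move {n : ℝ} (hn : 0 < n) (k y : ℕ) (hc : IsCoprime (k : ℤ) (y : ℤ)) (hk : 0 < k) :
    Rv n ((k * n + y) ^ 2 / n) := by
  apply Mv.mirror
  refine Mv.stepA k y hc (by positivity) (by positivity) (by push_cast; simp) (by linarith) ?_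
  have e : (((k : ℕ) : ℤ) : ℝ) * ((((k : ℕ) : ℤ) : ℝ) * n + (((y : ℕ) : ℤ) : ℝ)) +
      ((((y : ℕ) : ℤ) : ℝ) - (((k : ℕ) : ℤ) : ℝ) * 0) * ((((k : ℕ) : ℤ) : ℝ) * n + (((y : ℕ) : ℤ) : ℝ)) / (n + 0) =
      (k * n + y) ^ 2 / n := by
    push_cast
    field_simp
    ring
  rw [← e]
  apply Mv.toRT
  rw [e]
  have : (0 : ℝ) < k := by exact_mod_cast hk
  positivity

/-- a zigzag step -/
theorem Mv.zig {n K μ' ν' : ℝ} (v : ℤ) (hn : 0 < n) (hK : K ≤ v)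
    (h : Mv (n - K + v) ((n - K + v) ^ 2 / n - (n - K + v)) μ' ν') : Mv K (n - K) μ' ν' := by
  apply Mv.mirror
  refine Mv.stepA 1 v isCoprime_one_left (by norm_num) (by push_cast; linarith)
    (by push_cast; linarith) (by linarith) ?_
  have e1 : ((1 : ℤ) : ℝ) * (((1 : ℤ) : ℝ) * (n - K) + (v : ℝ)) = n - K + v := by push_cast; ring
  have e2 : ((v : ℝ) - ((1 : ℤ) : ℝ) * K) * (((1 : ℤ) : ℝ) * (n - K) + (v : ℝ)) / (n - K + K) =
      (n - K + v) ^ 2 / n - (n - K + v) := by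
    push_cast
    have : n - K + K = n := by ring
    rw [this]
    field_simp
    ring
  rw [e1, e2]
  exact h

/-- four zigzags from a right triangle -/
theorem zigs (x : ℝ) (hx : 0 < x) (a c d : ℤ) {K2 n2 K3 n3 K4 n4 K5 n5 : ℝ}
    (hK2 : K2 = x + 1) (hn2 : n2 = K2 ^ 2 / x) (hK3 : K3 = n2 - K2 + a) (hn3 : n3 = K3 ^ 2 / n2)
    (hK4 : K4 = n3 - K3 + c) (hn4 : n4 = K4 ^ 2 / n3) (hK5 : K5 = n4 - K4 + d)
    (hn5 : n5 = K5 ^ 2 / n4) (h2 : K2 ≤ a) (h3 : K3 ≤ c) (h4 : K4 ≤ d) :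
    0 < n2 ∧ 0 < K2 ∧ 0 < n3 ∧ 0 < K3 ∧ 0 < n4 ∧ 0 < K4 ∧ 0 < n5 ∧ 0 < K5 ∧ Rv x n5 := by
  have p2 : 0 < K2 := by rw [hK2]; linarith
  have q2 : 0 < n2 := by rw [hn2]; positivity
  have p3 : 0 < K3 := by rw [hK3]; linarith
  have q3 : 0 < n3 := by rw [hn3]; positivity
  have p4 : 0 < K4 := by rw [hK4]; linarith
  have q4 : 0 < n4 := by rw [hn4]; positivity
  have p5 : 0 < K5 := by rw [hK5]; linarith
  have q5 : 0 < n5 := by rw [hn5]; positivity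
  refine ⟨q2, p2, q3, p3, q4, p4, q5, p5, ?_⟩
  have g5 : Mv K5 (n5 - K5) 0 n5 := by
    have h := Mv.toRT (μ := K5) (ν := n5 - K5) (by linarith)
    have : K5 + (n5 - K5) = n5 := by ring
    rwa [this] at h
  have g4 : Mv K4 (n4 - K4) 0 n5 := by
    refine Mv.zig d q4 h4 ?_
    rw [← hK5, ← hn5]; exact g5
  have g3 : Mv K3 (n3 - K3) 0 n5 := by
    refine Mv.zig c q3 h3 ?_
    rw [← hK4, ← hn4]; exact g4
  have g2 : Mv K2 (n2 - K2) 0 n5 := by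
    refine Mv.zig a q2 h2 ?_
    rw [← hK3, ← hn3]; exact g3
  have g1 : Mv 0 (x - 0) 0 n5 := by
    refine Mv.zig 1 hx (by norm_num) ?_
    have e : x - 0 + ((1 : ℤ) : ℝ) = K2 := by rw [hK2]; push_cast; ring
    rw [e, ← hn2]; exact g2
  rw [sub_zero] at g1
  exact g1

theorem real_side {m x : ℝ} (hm : 10 ≤ m) (hx1 : m + 7 / 2 ≤ x) (hx2 : x ≤ m + 5)
    {K2 n2 K3 n3 K4 : ℝ}
    (hK2 : K2 = x + 1) (hn2 : n2 = K2 ^ 2 / x) (hK3 : K3 = n2 - K2 + (m + 6)) (hn3 : n3 = K3 ^ 2 / n2)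
    (hK4 : K4 = n3 - K3 + (m + 8)) : K2 ≤ m + 6 ∧ K3 ≤ m + 8 ∧ K4 ≤ m + 12 := by
  have hx0 : 0 < x := by linarith
  have hn2K : n2 - K2 = 1 + 1 / x := by
    rw [hn2, hK2]; field_simp; ring
  have h10 : 0 < 1 / x := by positivity
  have h12 : 1 / x ≤ 1 := by rw [div_le_one hx0]; linarith
  have hn2pos : 0 < n2 := by rw [hn2, hK2]; positivity
  refine ⟨by rw [hK2]; linarith, by rw [hK3, hn2K]; linarith, ?_⟩
  have e : n3 - K3 ≤ 4 := by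
    have e2 : (m + 6) - K2 ≤ 3 / 2 := by rw [hK2]; linarith
    have e3 : 0 ≤ (m + 6) - K2 := by rw [hK2]; linarith
    have e4 : K3 = n2 + ((m + 6) - K2) := by rw [hK3]; ring
    have e5 : 1 ≤ n2 := by
      have h11 : 1 ≤ K2 := by rw [hK2]; linarith
      linarith
    rw [hn3, e4, sub_le_iff_le_add, div_le_iff₀ hn2pos]
    set δ := (m + 6) - K2
    have e6 : δ * δ ≤ 3 / 2 * (3 / 2) := mul_le_mul e2 e2 e3 (by norm_num)
    have e7 : n2 * δ ≤ n2 * (3 / 2) := mul_le_mul_of_nonneg_left e2 hn2pos.le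
    have e8 : (n2 + δ) ^ 2 = n2 * n2 + 2 * (n2 * δ) + δ * δ := by ring
    have e9 : (4 + (n2 + δ)) * n2 = 4 * n2 + n2 * n2 + n2 * δ := by ring
    rw [e8, e9]
    linarith
  rw [hK4]; linarith

theorem conj_side {m x y : ℝ} (hm : 10 ≤ m) (hy1 : m ^ 3 ≤ y) (hxy : x = 1 / y)
    {K2 n2 K3 n3 K4 n4 K5 : ℝ}
    (hK2 : K2 = x + 1) (hn2 : n2 = K2 ^ 2 / x) (hK3 : K3 = n2 - K2 + (m + 6)) (hn3 : n3 = K3 ^ 2 / n2)
    (hK4 : K4 = n3 - K3 + (m + 8)) (hn4 : n4 = K4 ^ 2 / n3) (hK5 : K5 = n4 - K4 + (m + 12)) :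
    0 < n2 ∧ 0 < K2 ∧ 0 < n3 ∧ 0 < K3 ∧ 0 < n4 ∧ 0 < K4 ∧ K5 < 0 := by
  have hm2 : 100 ≤ m ^ 2 := by nlinarith
  have hy2 : 100 * m ≤ y := by
    have : 100 * m ≤ m ^ 2 * m := mul_le_mul_of_nonneg_right hm2 (by linarith)
    have e : m ^ 2 * m = m ^ 3 := by ring
    linarith
  have hy3 : 1000 ≤ y := by linarith
  have hy0 : 0 < y := by linarith
  have hinv : 1 / y ≤ 1 / 1000 := one_div_le_one_div_of_le (by norm_num) hy3
  have hinv0 : 0 < 1 / y := by positivity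
  have hx0 : 0 < x := by rw [hxy]; exact hinv0
  have p2 : 0 < K2 := by rw [hK2]; linarith
  have q2 : 0 < n2 := by rw [hn2]; positivity
  have hn2K : n2 - K2 = 1 + y := by
    rw [hn2, hK2, hxy]; field_simp; ring
  have e3' : K3 = 1 + y + (m + 6) := by rw [hK3, hn2K]
  have p3 : 0 < K3 := by rw [e3']; linarith
  have q3 : 0 < n3 := by rw [hn3]; positivity
  have e4' : 2 * (m + 6) ≤ K4 := by
    have e1 : n2 ≤ K3 := by
      rw [hK3, hK2, hxy]; linarith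
    have e2 : (m + 6) - K2 ≤ n3 - K3 := by
      have e3 : n3 - K3 = K3 * ((m + 6) - K2) / n2 := by
        have : (m + 6) - K2 = K3 - n2 := by rw [hK3]; ring
        rw [hn3, this]; field_simp
      rw [e3, le_div_iff₀ q2, mul_comm]
      apply mul_le_mul_of_nonneg_right e1
      rw [hK2, hxy]; linarith
    rw [hK4]
    rw [hK2, hxy] at e2
    linarith
  have p4 : 0 < K4 := by linarith
  have q4 : 0 < n4 := by rw [hn4]; positivity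
  refine ⟨q2, p2, q3, p3, q4, p4, ?_⟩
  have e1 : n4 - K4 = - (K4 * (y - 1) / n3) := by
    have e2 : y - 1 = n3 - K4 := by rw [hK4, e3']; ring
    rw [hn4, e2]; field_simp; ring
  have e2 : n3 ≤ K3 ^ 2 / y := by
    rw [hn3]
    apply div_le_div_of_nonneg_left (by positivity) hy0
    linarith
  have e8 : (m + 12) * (K3 ^ 2 / y) < 2 * (m + 6) * (y - 1) := by
    rw [← mul_div_assoc, div_lt_iff₀ hy0, e3']
    have e9 : 1 + y + (m + 6) ≤ 51 / 50 * y := by linarith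
    have e10 : (1 + y + (m + 6)) ^ 2 ≤ (51 / 50 * y) ^ 2 :=
      pow_le_pow_left₀ (by linarith) e9 2
    have e11 : (m + 12) * (1 + y + (m + 6)) ^ 2 ≤ (m + 12) * (51 / 50 * y) ^ 2 :=
      mul_le_mul_of_nonneg_left e10 (by linarith)
    have e12 : 999 / 1000 * y ≤ y - 1 := by linarith
    have e13 : 2 * (m + 6) * (999 / 1000 * y) * y ≤ 2 * (m + 6) * (y - 1) * y := by
      apply mul_le_mul_of_nonneg_right _ hy0.le
      apply mul_le_mul_of_nonneg_left e12; linarith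
    have e14 : (m + 12) * (51 / 50 * y) ^ 2 < 2 * (m + 6) * (999 / 1000 * y) * y := by
      have h1 : 0 < y ^ 2 := by positivity
      have h2 : (m + 12) * (51 / 50) ^ 2 < 2 * (m + 6) * (999 / 1000) := by linarith
      have h3 := mul_lt_mul_of_pos_right h2 h1
      linarith
    linarith
  have e5 : (m + 12) * n3 < K4 * (y - 1) := by
    have e6 : (m + 12) * n3 ≤ (m + 12) * (K3 ^ 2 / y) := by
      apply mul_le_mul_of_nonneg_left e2; linarith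
    have e7 : 2 * (m + 6) * (y - 1) ≤ K4 * (y - 1) := by
      apply mul_le_mul_of_nonneg_right e4'; linarith
    linarith
  rw [hK5, e1, neg_add_lt_iff_lt_add, add_zero, lt_div_iff₀ q3]
  exact e5

theorem key {M : ℕ} (hM : 10 ≤ M) : ∃ c : ℚ, 0 < c ∧ Rv M (c ^ 2 * ((M : ℝ) + 4)) := by
  have hm : (10 : ℝ) ≤ M := by exact_mod_cast hM
  set m : ℝ := (M : ℝ) with hmdef
  set s := √(m * (m + 4)) with hsdef
  have hs : s ^ 2 = m * (m + 4) := Real.sq_sqrt (by positivity)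
  have hs0 : 0 ≤ s := Real.sqrt_nonneg _
  have hs1 : m + 1 < s := by nlinarith
  have hs2 : s < m + 2 := by nlinarith
  have hsQ : s ^ 2 = (((M : ℚ) * ((M : ℚ) + 4) : ℚ) : ℝ) := by rw [hs]; push_cast; rfl
  set ω := (m + 2 + s) / 2 with hω
  set ω' := (m + 2 - s) / 2 with hω'
  have hωω' : ω * ω' = 1 := by rw [hω, hω']; linear_combination (-1 / 4) * hs
  have hω2 : ω ^ 2 + 1 = (m + 2) * ω := by rw [hω]; linear_combination (1 / 4) * hs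
  have hω1 : m + 3 / 2 ≤ ω := by rw [hω]; linarith
  have hω3 : ω ≤ m + 2 := by rw [hω]; linarith
  have hωpos : 0 < ω := by linarith
  have hω'pos : 0 < ω' := by rw [hω']; linarith
  have hKω : InK s ω ω' := by
    refine ⟨((M : ℚ) + 2) / 2, 1 / 2, ?_, ?_⟩
    · rw [hω]; push_cast; ring
    · rw [hω']; push_cast; ring
  have hKm : InK s m m := InK.nat M
  -- the real side
  set x := ω ^ 2 / m with hx
  have hmpos : 0 < m := by linarith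
  have hx0 : 0 < x := by positivity
  have hx1 : m + 7 / 2 ≤ x := by
    rw [hx, le_div_iff₀ hmpos]; nlinarith
  have hx2 : x ≤ m + 5 := by
    rw [hx, div_le_iff₀ hmpos]; nlinarith
  set a : ℤ := (M : ℤ) + 6 with ha
  set c : ℤ := (M : ℤ) + 8 with hc
  set d : ℤ := (M : ℤ) + 12 with hd
  have haR : (a : ℝ) = m + 6 := by rw [ha]; push_cast; rfl
  have hcR : (c : ℝ) = m + 8 := by rw [hc]; push_cast; rfl
  have hdR : (d : ℝ) = m + 12 := by rw [hd]; push_cast; rfl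
  obtain ⟨K2, hK2⟩ : ∃ K2, K2 = x + 1 := ⟨_, rfl⟩
  obtain ⟨n2, hn2⟩ : ∃ n2, n2 = K2 ^ 2 / x := ⟨_, rfl⟩
  obtain ⟨K3, hK3⟩ : ∃ K3, K3 = n2 - K2 + a := ⟨_, rfl⟩
  obtain ⟨n3, hn3⟩ : ∃ n3, n3 = K3 ^ 2 / n2 := ⟨_, rfl⟩
  obtain ⟨K4, hK4⟩ : ∃ K4, K4 = n3 - K3 + c := ⟨_, rfl⟩
  obtain ⟨n4, hn4⟩ : ∃ n4, n4 = K4 ^ 2 / n3 := ⟨_, rfl⟩
  obtain ⟨K5, hK5⟩ : ∃ K5, K5 = n4 - K4 + d := ⟨_, rfl⟩
  obtain ⟨n5, hn5⟩ : ∃ n5, n5 = K5 ^ 2 / n4 := ⟨_, rfl⟩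
  obtain ⟨h2, h3, h4⟩ : K2 ≤ a ∧ K3 ≤ c ∧ K4 ≤ d := by
    rw [haR] at hK3 ⊢
    rw [hcR] at hK4 ⊢
    rw [hdR]
    exact real_side hm hx1 hx2 hK2 hn2 hK3 hn3 hK4
  obtain ⟨q2, p2, q3, p3, q4, p4, q5, p5, hch⟩ :=
    zigs x hx0 a c d hK2 hn2 hK3 hn3 hK4 hn4 hK5 hn5 h2 h3 h4
  -- the conjugate side
  set x' := ω' ^ 2 / m with hx'
  have hx'0 : 0 < x' := by positivity
  obtain ⟨K2', hK2'⟩ : ∃ K2', K2' = x' + 1 := ⟨_, rfl⟩
  obtain ⟨n2', hn2'⟩ : ∃ n2', n2' = K2' ^ 2 / x' := ⟨_, rfl⟩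
  obtain ⟨K3', hK3'⟩ : ∃ K3', K3' = n2' - K2' + a := ⟨_, rfl⟩
  obtain ⟨n3', hn3'⟩ : ∃ n3', n3' = K3' ^ 2 / n2' := ⟨_, rfl⟩
  obtain ⟨K4', hK4'⟩ : ∃ K4', K4' = n3' - K3' + c := ⟨_, rfl⟩
  obtain ⟨n4', hn4'⟩ : ∃ n4', n4' = K4' ^ 2 / n3' := ⟨_, rfl⟩
  obtain ⟨K5', hK5'⟩ : ∃ K5', K5' = n4' - K4' + d := ⟨_, rfl⟩
  obtain ⟨y, hy⟩ : ∃ y, y = m * ω ^ 2 := ⟨_, rfl⟩
  have hy0 : 0 < y := by rw [hy]; positivity
  have hxy : x' = 1 / y := by
    rw [hx', hy, div_eq_div_iff hmpos.ne' (by positivity)]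
    have : ω' ^ 2 * (m * ω ^ 2) = m * (ω * ω') ^ 2 := by ring
    rw [this, hωω']; ring
  have hy1 : m ^ 3 ≤ y := by
    rw [hy]
    have h10 : m ^ 2 ≤ ω ^ 2 := pow_le_pow_left₀ (by linarith) (by linarith) 2
    have h11 := mul_le_mul_of_nonneg_left h10 hmpos.le
    have e : m ^ 3 = m * m ^ 2 := by ring
    rw [e]; exact h11
  obtain ⟨q2', p2', q3', p3', q4', p4', hneg⟩ := by
    have hK3'' := hK3'
    have hK4'' := hK4'
    have hK5'' := hK5'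
    rw [haR] at hK3''
    rw [hcR] at hK4''
    rw [hdR] at hK5''
    exact conj_side hm hy1 hxy hK2' hn2' hK3'' hn3' hK4'' hn4' hK5''
  -- the widths
  obtain ⟨b2, hb2⟩ : ∃ b2, b2 = K2 * m / ω := ⟨_, rfl⟩
  obtain ⟨b3, hb3⟩ : ∃ b3, b3 = K3 * m / b2 := ⟨_, rfl⟩
  obtain ⟨b4, hb4⟩ : ∃ b4, b4 = K4 * m / b3 := ⟨_, rfl⟩
  obtain ⟨b5, hb5⟩ : ∃ b5, b5 = K5 * m / b4 := ⟨_, rfl⟩
  obtain ⟨b2', hb2'⟩ : ∃ b2', b2' = K2' * m / ω' := ⟨_, rfl⟩
  obtain ⟨b3', hb3'⟩ : ∃ b3', b3' = K3' * m / b2' := ⟨_, rfl⟩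
  obtain ⟨b4', hb4'⟩ : ∃ b4', b4' = K4' * m / b3' := ⟨_, rfl⟩
  obtain ⟨b5', hb5'⟩ : ∃ b5', b5' = K5' * m / b4' := ⟨_, rfl⟩
  have r2 : 0 < b2 := by rw [hb2]; positivity
  have r3 : 0 < b3 := by rw [hb3]; positivity
  have r4 : 0 < b4 := by rw [hb4]; positivity
  have r5 : 0 < b5 := by rw [hb5]; positivity
  have r2' : 0 < b2' := by rw [hb2']; positivity
  have r3' : 0 < b3' := by rw [hb3']; positivity
  have r4' : 0 < b4' := by rw [hb4']; positivity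
  have r5' : b5' < 0 := by
    rw [hb5']
    apply div_neg_of_neg_of_pos _ r4'
    exact mul_neg_of_neg_of_pos hneg hmpos
  have t1 : ω ^ 2 = m * x := by rw [hx]; field_simp
  have t2 : b2 ^ 2 = m * n2 := by
    rw [hb2, div_pow, t1, hn2]; field_simp
  have t3 : b3 ^ 2 = m * n3 := by
    rw [hb3, div_pow, t2, hn3]; field_simp
  have t4 : b4 ^ 2 = m * n4 := by
    rw [hb4, div_pow, t3, hn4]; field_simp
  have t5 : b5 ^ 2 = m * n5 := by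
    rw [hb5, div_pow, t4, hn5]; field_simp
  have hn5b : n5 = b5 ^ 2 / m := by rw [t5]; field_simp
  -- conjugate pairs
  have k1 : InK s x x' := (InK.div hsQ (by rw [sq, sq]; exact hKω.mul hsQ hKω) hKm hmpos.ne' hmpos.ne')
  have one : InK s 1 1 := by simpa using InK.nat (s := s) 1
  have k2 : InK s K2 K2' := by rw [hK2, hK2']; exact k1.add one
  have l2 : InK s n2 n2' := by
    rw [hn2, hn2', sq, sq]; exact (k2.mul hsQ k2).div hsQ k1 hx0.ne' hx'0.ne'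
  have k3 : InK s K3 K3' := by rw [hK3, hK3']; exact (l2.sub k2).add (InK.int a)
  have l3 : InK s n3 n3' := by
    rw [hn3, hn3', sq, sq]; exact (k3.mul hsQ k3).div hsQ l2 q2.ne' q2'.ne'
  have k4 : InK s K4 K4' := by rw [hK4, hK4']; exact (l3.sub k3).add (InK.int c)
  have l4 : InK s n4 n4' := by
    rw [hn4, hn4', sq, sq]; exact (k4.mul hsQ k4).div hsQ l3 q3.ne' q3'.ne'
  have k5 : InK s K5 K5' := by rw [hK5, hK5']; exact (l4.sub k4).add (InK.int d)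
  have j2 : InK s b2 b2' := by
    rw [hb2, hb2']; exact (k2.mul hsQ hKm).div hsQ hKω hωpos.ne' hω'pos.ne'
  have j3 : InK s b3 b3' := by
    rw [hb3, hb3']; exact (k3.mul hsQ hKm).div hsQ j2 r2.ne' r2'.ne'
  have j4 : InK s b4 b4' := by
    rw [hb4, hb4']; exact (k4.mul hsQ hKm).div hsQ j3 r3.ne' r3'.ne'
  have j5 : InK s b5 b5' := by
    rw [hb5, hb5']; exact (k5.mul hsQ hKm).div hsQ j4 r4.ne' r4'.ne'
  obtain ⟨k, y0, hcop, hk, c0, hc0, hfin⟩ := neg_norm (M := M) (by omega) hs j5 r5 r5' (by linarith)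
  refine ⟨c0, hc0, ?_⟩
  apply Mv.lim (by omega) (ω := ω) (by linarith) hω2
  have hsum : 1 / (M : ℝ) + (ω ^ 2 - 1) / M = x := by rw [hx, ← hmdef]; ring
  have h1 := Mv.toRT (μ := 1 / (M : ℝ)) (ν := (ω ^ 2 - 1) / M) (by rw [hsum]; exact hx0)
  rw [hsum] at h1
  have h2 := Rv.move q5 k y0 hcop hk
  rw [hn5b, hfin] at h2
  rw [hn5b] at hch
  exact h1.trans (hch.trans h2)

/-- large solutions of `(D + 1) y ^ 2 = D t ^ 2 + 1` -/
theorem pell (D : ℕ) (k : ℕ) : ∃ y t : ℕ, k ≤ t ∧ 1 ≤ y ∧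
    (D + 1) * y ^ 2 = D * t ^ 2 + 1 := by
  induction k with
  | zero => exact ⟨1, 1, by omega, le_rfl, by ring⟩
  | succ k ih =>
    obtain ⟨y, t, h1, h2, h3⟩ := ih
    refine ⟨(2 * D + 1) * y + 2 * D * t, (2 * D + 1) * t + 2 * (D + 1) * y, ?_, ?_, ?_⟩
    · nlinarith
    · nlinarith
    · have h4 : ((D : ℤ) + 1) * y ^ 2 = D * t ^ 2 + 1 := by exact_mod_cast h3
      have : ((D : ℤ) + 1) * ((2 * D + 1) * y + 2 * D * t) ^ 2 =
          D * ((2 * D + 1) * t + 2 * (D + 1) * y) ^ 2 + 1 := by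
        linear_combination h4
      exact_mod_cast this

/-- the square class of `D` is reached from the right triangle `n` -/
def Cl (n : ℝ) (D : ℕ) : Prop := ∃ P : ℕ, 1 ≤ P ∧ Rv n ((P : ℝ) ^ 2 * D)

theorem Cl.all {n : ℝ} {D : ℕ} (hD : 1 ≤ D) (h : Cl n D) : ∃ P : ℕ, 1 ≤ P ∧ ∀ t : ℕ, P ≤ t →
    Rv n ((t : ℝ) ^ 2 * D) := by
  obtain ⟨P, hP, hP2⟩ := h
  refine ⟨P, hP, fun t ht => hP2.trans ?_⟩
  have hP' : (1 : ℝ) ≤ P := by exact_mod_cast hP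
  have hD' : (1 : ℝ) ≤ D := by exact_mod_cast hD
  have ht' : (P : ℝ) ≤ t := by exact_mod_cast ht
  have h1 := Rv.div (n := (P : ℝ) ^ 2 * D) (by positivity) (t * P * D) (by
    have h1 : 1 ≤ t := hP.trans ht
    exact Nat.succ_le_of_lt (by positivity)) (by
    push_cast
    have : (P : ℝ) ^ 2 * D = P * (P * D) := by ring
    rw [this]
    have : (t : ℝ) * P * D = t * (P * D) := by ring
    rw [this]
    exact mul_le_mul_of_nonneg_right ht' (by positivity))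
  have : (((t * P * D : ℕ) : ℝ)) ^ 2 / ((P : ℝ) ^ 2 * D) = (t : ℝ) ^ 2 * D := by
    push_cast
    have hP0 : (P : ℝ) ≠ 0 := by linarith
    have hD0 : (D : ℝ) ≠ 0 := by linarith
    field_simp
  rwa [this] at h1

theorem rat_mul {D : ℕ} (hD : 1 ≤ D) {c : ℚ} (hc : 0 < c) : ∃ P : ℕ, 1 ≤ P ∧
    Rv ((c : ℝ) ^ 2 * D) ((P : ℝ) ^ 2 * D) := by
  have hD' : (1 : ℝ) ≤ D := by exact_mod_cast hD
  have big : ∀ c : ℚ, 0 < c → 1 ≤ (c : ℝ) ^ 2 * D → ∃ P : ℕ, 1 ≤ P ∧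
      Rv ((c : ℝ) ^ 2 * D) ((P : ℝ) ^ 2 * D) := by
    intro c hc h1
    have hnum : 0 < c.num := Rat.num_pos.2 hc
    have hy : ((c.num.toNat : ℕ) : ℝ) = c.num := by
      have : ((c.num.toNat : ℕ) : ℤ) = c.num := Int.toNat_of_nonneg hnum.le
      exact_mod_cast this
    refine ⟨c.num.toNat, by omega, ?_⟩
    have hden : 1 ≤ c.den := c.den_pos
    have hden' : (1 : ℝ) ≤ c.den := by exact_mod_cast hden
    have h2 := Rv.mul (n := (c : ℝ) ^ 2 * D) c.den hden (by nlinarith)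
    have hk : (c : ℝ) * c.den = c.num := by
      have := Rat.mul_den_eq_num c
      exact_mod_cast this
    have : (c.den : ℝ) ^ 2 * ((c : ℝ) ^ 2 * D) = ((c.num.toNat : ℕ) : ℝ) ^ 2 * D := by
      rw [hy, ← hk]; ring
    rwa [this] at h2
  rcases le_or_gt 1 ((c : ℝ) ^ 2 * D) with h1 | h1
  · exact big c hc h1
  · have hcR : (0 : ℝ) < c := by exact_mod_cast hc
    have hpos : 0 < (c : ℝ) ^ 2 * D := by positivity
    have hDQ : (0 : ℚ) < D := by exact_mod_cast hD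
    have e : (((1 / (c * D) : ℚ)) : ℝ) ^ 2 * D = 1 / ((c : ℝ) ^ 2 * D) := by
      push_cast
      have hD0 : (D : ℝ) ≠ 0 := by linarith
      field_simp
    obtain ⟨P, hP, hP2⟩ := big (1 / (c * D)) (by positivity) (by
      rw [e, one_le_div hpos]; exact h1.le)
    refine ⟨P, hP, ?_⟩
    have h3 := Rv.inv hpos
    rw [← e] at h3
    exact h3.trans hP2

theorem Cl.succ {n : ℝ} {D : ℕ} (hD : 1 ≤ D) (h : Cl n D) : Cl n (D + 1) := by
  obtain ⟨P, hP, hP2⟩ := h.all hD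
  obtain ⟨y, t, ht, hy, hyt⟩ := pell D (P + 10)
  have hM : 10 ≤ (2 * t) ^ 2 * D := by
    have h1 : 10 ≤ 2 * t := by omega
    have h2 : 1 * 10 ≤ (2 * t) ^ 2 * D := by
      calc 1 * 10 ≤ (2 * t) ^ 1 * 1 := by rw [pow_one]; omega
        _ ≤ (2 * t) ^ 2 * D := Nat.mul_le_mul (Nat.pow_le_pow_right (by omega) (by norm_num)) hD
    omega
  obtain ⟨c, hc, hkey⟩ := key hM
  obtain ⟨P', hP', hP2'⟩ := rat_mul (D := D + 1) (by omega) (c := c * (2 * y)) (by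
    have : (0 : ℚ) < y := by exact_mod_cast hy
    positivity)
  refine ⟨P', hP', ?_⟩
  have h0 := hP2 (2 * t) (by omega)
  have e : (((2 * t : ℕ) : ℝ)) ^ 2 * D = (((2 * t) ^ 2 * D : ℕ) : ℝ) := by push_cast; ring
  rw [e] at h0
  have h3 : ((D : ℝ) + 1) * y ^ 2 = D * t ^ 2 + 1 := by exact_mod_cast hyt
  have e2 : (c : ℝ) ^ 2 * ((((2 * t) ^ 2 * D : ℕ) : ℝ) + 4) =
      ((c * (2 * y) : ℚ) : ℝ) ^ 2 * ((D + 1 : ℕ) : ℝ) := by
    push_cast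
    linear_combination (-4 * (c : ℝ) ^ 2) * h3
  rw [e2] at hkey
  exact h0.trans (hkey.trans hP2')

/-- every square class is reached from every square class -/
theorem Cl.of {M D : ℕ} (hM : 1 ≤ M) (hD : 1 ≤ D) : Cl M D := by
  have h1 : ∀ k, Cl M (M + k) := by
    intro k
    induction k with
    | zero => exact ⟨1, le_rfl, by simpa using Rv.refl (M : ℝ)⟩
    | succ k ih => exact Cl.succ (D := M + k) (le_trans hM (Nat.le_add_right M k)) ih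
  obtain ⟨k, hk⟩ : ∃ k, D * M ^ 2 = M + k := by
    refine ⟨D * M ^ 2 - M, ?_⟩
    have : M ≤ D * M ^ 2 := by nlinarith
    exact (Nat.add_sub_of_le this).symm
  obtain ⟨P, hP, hP2⟩ := h1 k
  rw [← hk] at hP2
  refine ⟨P * M, by nlinarith, ?_⟩
  have : (((P * M : ℕ) : ℝ)) ^ 2 * D = (P : ℝ) ^ 2 * ((D * M ^ 2 : ℕ) : ℝ) := by push_cast; ring
  rw [this]
  exact hP2

/-- from the right triangle `M` to all `t ^ 2 D` with `t` large -/
theorem Mv_cls {M D : ℕ} (hM : 1 ≤ M) (hD : 1 ≤ D) : ∃ t0 : ℕ, 1 ≤ t0 ∧ ∀ t : ℕ, t0 ≤ t →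
    Mv 0 M 0 ((t : ℝ) ^ 2 * D) := (Cl.of hM hD).all hD

end Pool.Agent.TH181.NagM
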