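import Pool.Agent.TH176.Nag.Defs

/-! Powers of Laurent polynomials: the scaling trick. -/

namespace Pool.Agent.TH181.Nag

open Finset Pool.Agent.TH176.Nag

section
variable {K : Type*} [Field K]

theorem pr_zero_left (x y : K) (P : K × K → K) : pr (0 : (ℤ × ℤ) →₀ K) x y P = 0 := by
  unfold pr
  rw [Finsupp.sum_zero_index]

theorem pr_add_left (f g : (ℤ × ℤ) →₀ K) (x y : K) (P : K × K → K) :
    pr (f + g) x y P = pr f x y P + pr g x y P := by
  unfold pr
  rw [Finsupp.sum_add_index' (by intro m; ring) (by intro m a b; ring)]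

theorem pr_single (m : ℤ × ℤ) (c x y : K) (P : K × K → K) :
    pr (Finsupp.single m c) x y P = c * P ((m.1 : K), (m.2 : K)) * (x ^ m.1 * y ^ m.2) := by
  unfold pr
  rw [Finsupp.sum_single_index (by ring)]

theorem pr_mul_mono {x y : K} (hx : x ≠ 0) (hy : y ≠ 0) (f g : Lau K) (a b : ℕ) :
    pr (f * g).coeff x y (fun u => u.1 ^ a * u.2 ^ b) =
      ∑ i ∈ range (a + 1), ∑ j ∈ range (b + 1), ((a.choose i : K) * (b.choose j : K)) *
        (pr f.coeff x y (fun u => u.1 ^ i * u.2 ^ j) *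
          pr g.coeff x y (fun u => u.1 ^ (a - i) * u.2 ^ (b - j))) := by
  induction f using AddMonoidAlgebra.induction_linear with
  | zero => simp [pr_zero_left]
  | add f1 f2 h1 h2 =>
    rw [add_mul, AddMonoidAlgebra.coeff_add, pr_add_left, h1, h2, ← sum_add_distrib]
    apply sum_congr rfl
    intro i _
    rw [← sum_add_distrib]
    apply sum_congr rfl
    intro j _
    rw [AddMonoidAlgebra.coeff_add, pr_add_left]; ring
  | single m c =>
    induction g using AddMonoidAlgebra.induction_linear with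
    | zero => simp [pr_zero_left]
    | add f1 f2 h1 h2 =>
      rw [mul_add, AddMonoidAlgebra.coeff_add, pr_add_left, h1, h2, ← sum_add_distrib]
      apply sum_congr rfl
      intro i _
      rw [← sum_add_distrib]
      apply sum_congr rfl
      intro j _
      rw [AddMonoidAlgebra.coeff_add, pr_add_left]; ring
    | single m' c' =>
      rw [AddMonoidAlgebra.single_mul_single]
      simp only [AddMonoidAlgebra.coeff_single, pr_single]
      have e1 : ((m + m').1 : K) = (m.1 : K) + (m'.1 : K) := by simp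
      have e2 : ((m + m').2 : K) = (m.2 : K) + (m'.2 : K) := by simp
      rw [e1, e2, Prod.fst_add, Prod.snd_add, zpow_add₀ hx, zpow_add₀ hy, add_pow, add_pow,
        sum_mul_sum, mul_sum, sum_mul]
      apply sum_congr rfl
      intro i _
      rw [mul_sum, sum_mul]
      apply sum_congr rfl
      intro j _
      ring

theorem LM_mul {x y : K} (hx : x ≠ 0) (hy : y ≠ 0) {f g : Lau K} {w w' : ℕ}
    (hf : LM f.coeff x y w) (hg : LM g.coeff x y w') : LM (f * g).coeff x y (w + w') := by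
  apply LM_of_mono
  intro a b hab
  rw [pr_mul_mono hx hy]
  apply sum_eq_zero
  intro i hi
  apply sum_eq_zero
  intro j hj
  rw [mem_range] at hi hj
  rcases lt_or_ge (i + j) w with h | h
  · rw [hf _ (mem_PF_mono h)]; ring
  · rw [hg _ (mem_PF_mono (by omega))]; ring

theorem LM_pow {x y : K} (hx : x ≠ 0) (hy : y ≠ 0) {f : Lau K} {w : ℕ}
    (hf : LM f.coeff x y w) (k : ℕ) : LM (f ^ k).coeff x y (k * w) := by
  induction k with
  | zero =>
    intro P hP
    have h0 : PF K (0 * w) = ⊥ := by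
      unfold PF
      rw [Submodule.span_eq_bot]
      rintro P ⟨a, b, hab, _⟩
      omega
    rw [h0, Submodule.mem_bot] at hP
    subst hP
    exact pr_zero_right _ _ _
  | succ k ih =>
    rw [pow_succ, Nat.succ_mul]
    exact LM_mul hx hy ih hf

end

/-- the `k`-fold sums of elements of `S` -/
def kS (S : Set (ℤ × ℤ)) : ℕ → Set (ℤ × ℤ)
  | 0 => {0}
  | (k + 1) => {m | ∃ p ∈ kS S k, ∃ q ∈ S, m = p + q}

theorem supp_mul {K : Type*} [Field K] {f g : Lau K} {S T : Set (ℤ × ℤ)}
    (hf : (↑f.coeff.support : Set (ℤ × ℤ)) ⊆ S) (hg : (↑g.coeff.support : Set (ℤ × ℤ)) ⊆ T) :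
    (↑(f * g).coeff.support : Set (ℤ × ℤ)) ⊆ {m | ∃ p ∈ S, ∃ q ∈ T, m = p + q} := by
  classical
  intro m hm
  have h1 := AddMonoidAlgebra.support_coeff_mul_subset f g (Finset.mem_coe.1 hm)
  rw [Finset.mem_add] at h1
  obtain ⟨p, hp, q, hq, rfl⟩ := h1
  exact ⟨p, hf (Finset.mem_coe.2 hp), q, hg (Finset.mem_coe.2 hq), rfl⟩

theorem supp_pow {K : Type*} [Field K] {f : Lau K} {S : Set (ℤ × ℤ)}
    (hf : (↑f.coeff.support : Set (ℤ × ℤ)) ⊆ S) (k : ℕ) :
    (↑(f ^ k).coeff.support : Set (ℤ × ℤ)) ⊆ kS S k := by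
  induction k with
  | zero =>
    intro m hm
    by_contra hne
    apply (Finsupp.mem_support_iff.1 (Finset.mem_coe.1 hm))
    rw [pow_zero, AddMonoidAlgebra.one_def, AddMonoidAlgebra.coeff_single, Finsupp.single_apply,
      if_neg]
    intro h
    exact hne h.symm
  | succ k ih =>
    rw [pow_succ]
    exact supp_mul ih hf

/-- the scaling trick -/
theorem Emp_pow {ι : Type} {w : ι → ℕ} {S S' : Set (ℤ × ℤ)} (k : ℕ) (hk : 1 ≤ k)
    (hS : kS S k ⊆ S') (h : Emp (fun i => k * w i) S') : Emp w S := by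
  obtain ⟨K, _, _, x, y, hx, hy, hf⟩ := h
  refine ⟨K, _, inferInstance, x, y, hx, hy, fun f h1 h2 => ?_⟩
  obtain ⟨F, rfl⟩ : ∃ F : Lau K, F.coeff = f := ⟨AddMonoidAlgebra.ofCoeff f, rfl⟩
  have h3 := hf (F ^ k).coeff ((supp_pow h1 k).trans hS) (fun i => LM_pow (hx i) (hy i) (h2 i) k)
  have h4 : F ^ k = 0 := by
    ext m
    rw [h3]; simp
  have h5 : F = 0 := pow_eq_zero_iff (by omega) |>.1 h4
  rw [h5]; rfl

end Pool.Agent.TH181.Nag
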